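import Pool.Agent.Y315.OP.Stm

/-!
# OP-PERT: the first variation of an optimal potential (project OP of helper315)
-/

set_option autoImplicit false

open MeasureTheory Filter Topology
open scoped ContDiff ENNReal

namespace Pool.Agent.Y291.OP

open Pool.Agent.Y315.OP

/-- elementary inequality -/
theorem elem (q s : ℝ) (hq : 0 < q) (hs : |s| ≤ 1 / 2) (hs' : q * |s| ≤ 1 / 2) :
    (1 + s) ^ (-q) ≤ 1 - q * s + (2 * q + 4 * q ^ 2) * s ^ 2 := by
  have hab := abs_le.1 hs
  have h1 : 0 < 1 + s := by linarith [hab.1]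
  rw [Real.rpow_def_of_pos h1]
  have h2 : s - 2 * s ^ 2 ≤ Real.log (1 + s) := by
    have h3 := Real.one_sub_inv_le_log_of_pos h1
    have h4 : 1 - (1 + s)⁻¹ - (s - 2 * s ^ 2) = s ^ 2 * (1 + 2 * s) / (1 + s) := by
      field_simp
      ring
    have h5 : 0 ≤ s ^ 2 * (1 + 2 * s) / (1 + s) := by
      apply div_nonneg (mul_nonneg (sq_nonneg _) _) h1.le
      linarith [hab.1]
    linarith
  have h6 : Real.log (1 + s) * (-q) ≤ -q * s + 2 * q * s ^ 2 := by nlinarith
  have h7 : |-q * s + 2 * q * s ^ 2| ≤ 2 * (q * |s|) := by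
    have e1 : s ^ 2 = |s| ^ 2 := (sq_abs s).symm
    have h8 : |-q * s + 2 * q * s ^ 2| ≤ |-q * s| + |2 * q * s ^ 2| := abs_add_le _ _
    have h9 : |-q * s| = q * |s| := by
      rw [abs_mul, abs_neg, abs_of_pos hq]
    have h10 : |2 * q * s ^ 2| = 2 * q * |s| ^ 2 := by
      rw [abs_of_nonneg (by positivity), e1]
    rw [h9, h10] at h8
    have h11 : 0 ≤ |s| := abs_nonneg s
    have h12 : 0 ≤ q * |s| := by positivity
    nlinarith [mul_nonneg h12 (sub_nonneg.2 hs)]
  have h8 : |-q * s + 2 * q * s ^ 2| ≤ 1 := by linarith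
  have h9 := Real.abs_exp_sub_one_sub_id_le h8
  have h10 : (-q * s + 2 * q * s ^ 2) ^ 2 ≤ 4 * q ^ 2 * s ^ 2 := by
    have h11 : (-q * s + 2 * q * s ^ 2) ^ 2 = |-q * s + 2 * q * s ^ 2| ^ 2 := (sq_abs _).symm
    rw [h11]
    have h12 : |-q * s + 2 * q * s ^ 2| ^ 2 ≤ (2 * (q * |s|)) ^ 2 :=
      pow_le_pow_left₀ (abs_nonneg _) h7 2
    have h13 : (2 * (q * |s|)) ^ 2 = 4 * q ^ 2 * s ^ 2 := by
      rw [mul_pow, mul_pow, sq_abs]; ring
    linarith
  have h11 := (abs_le.1 h9).2
  have h12 : Real.exp (Real.log (1 + s) * (-q)) ≤ Real.exp (-q * s + 2 * q * s ^ 2) :=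
    Real.exp_le_exp.2 h6
  nlinarith

/-- the finite-dimensional perturbation argument -/
theorem findim {k : ℕ} (hk : 1 ≤ k) (N B R : (Fin k → ℝ) → ℝ) (hN : Continuous N)
    (hB : Continuous B) (hR : Continuous R)
    (hN2 : ∀ (a : ℝ) c, N (a • c) = a ^ 2 * N c) (hB2 : ∀ (a : ℝ) c, B (a • c) = a ^ 2 * B c)
    (hR2 : ∀ (a : ℝ) c, R (a • c) = a ^ 2 * R c)
    (hN0 : ∀ c, 0 ≤ N c) (hR0 : ∀ c, c ≠ 0 → 0 < R c)
    (hBN : ∀ c, c ≠ 0 → N c = 0 → 0 < B c) (C T : ℝ) (hT : 0 < T) :
    ∃ t s : ℝ, 0 < t ∧ t ≤ T ∧ 0 < s ∧ ∀ c, s * R c ≤ N c + t * B c - C * t ^ 2 * R c := by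
  have : Nonempty (Fin k) := ⟨⟨0, hk⟩⟩
  have hcpt : IsCompact (Metric.sphere (0 : Fin k → ℝ) 1) := isCompact_sphere _ _
  have hne : (Metric.sphere (0 : Fin k → ℝ) 1).Nonempty := by
    refine ⟨fun _ => 1, ?_⟩
    rw [mem_sphere_zero_iff_norm]
    rw [pi_norm_const]
    simp
  by_contra hcon
  push Not at hcon
  -- for each small t there is a bad vector on the sphere
  have hbad : ∀ t : ℝ, 0 < t → t ≤ T → ∃ c ∈ Metric.sphere (0 : Fin k → ℝ) 1,
      N c + t * B c - C * t ^ 2 * R c ≤ 0 := by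
    intro t ht0 htT
    by_contra hgood
    push Not at hgood
    have hcont : ContinuousOn (fun c => (N c + t * B c - C * t ^ 2 * R c) / R c)
        (Metric.sphere (0 : Fin k → ℝ) 1) := by
      apply ContinuousOn.div
      · exact (((hN.add (continuous_const.mul hB)).sub (continuous_const.mul hR))).continuousOn
      · exact hR.continuousOn
      · intro c hc
        exact (hR0 c (by
          rintro rfl
          simp at hc)).ne'
    obtain ⟨c₀, hc₀, hmin⟩ := hcpt.exists_isMinOn hne hcont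
    have hc₀' : c₀ ≠ 0 := by
      rintro rfl
      simp at hc₀
    obtain ⟨c, hc⟩ := hcon t ((N c₀ + t * B c₀ - C * t ^ 2 * R c₀) / R c₀) ht0 htT
      (div_pos (hgood c₀ hc₀) (hR0 c₀ hc₀'))
    rcases eq_or_ne c 0 with h0 | h0
    · subst h0
      have e1 : N (0 : Fin k → ℝ) = 0 := by simpa using hN2 0 0
      have e2 : B (0 : Fin k → ℝ) = 0 := by simpa using hB2 0 0
      have e3 : R (0 : Fin k → ℝ) = 0 := by simpa using hR2 0 0
      rw [e1, e2, e3] at hc
      simp at hc
    · have hn : ‖c‖ ≠ 0 := norm_ne_zero_iff.2 h0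
      have hmem : (‖c‖⁻¹ • c) ∈ Metric.sphere (0 : Fin k → ℝ) 1 := by
        rw [mem_sphere_zero_iff_norm, norm_smul, norm_inv, norm_norm, inv_mul_cancel₀ hn]
      have h1 := hmin hmem
      simp only [Set.mem_ofPred_eq] at h1
      rw [hN2, hB2, hR2] at h1
      have hRc := hR0 c h0
      have e1 : (‖c‖⁻¹ ^ 2 * N c + t * (‖c‖⁻¹ ^ 2 * B c) - C * t ^ 2 * (‖c‖⁻¹ ^ 2 * R c)) /
          (‖c‖⁻¹ ^ 2 * R c) = (N c + t * B c - C * t ^ 2 * R c) / R c := by
        field_simp
      rw [e1] at h1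
      rw [le_div_iff₀ hRc] at h1
      linarith
  choose! c hc using hbad
  have hTn : ∀ n : ℕ, 0 < T / (n + 1) ∧ T / (n + 1) ≤ T := by
    intro n
    have : (0 : ℝ) < n + 1 := by positivity
    refine ⟨by positivity, ?_⟩
    rw [div_le_iff₀ this]
    nlinarith [Nat.cast_nonneg (α := ℝ) n]
  obtain ⟨a, ha, ψ, hψ, hlim⟩ := hcpt.tendsto_subseq
    (fun n : ℕ => (hc (T / (n + 1)) (hTn n).1 (hTn n).2).1)
  have ha0 : a ≠ 0 := by
    rintro rfl
    simp at ha
  have hT0 : Tendsto (fun n : ℕ => T / ((n : ℝ) + 1)) atTop (𝓝 0) := by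
    have h1 := tendsto_one_div_add_atTop_nhds_zero_nat (𝕜 := ℝ)
    have h2 := h1.const_mul T
    simp only [mul_zero] at h2
    refine h2.congr (fun n => ?_)
    ring
  have hT1 : Tendsto (fun n : ℕ => T / (((ψ n : ℕ) : ℝ) + 1)) atTop (𝓝 0) :=
    hT0.comp hψ.tendsto_atTop
  have hNl := (hN.tendsto a).comp hlim
  have hBl := (hB.tendsto a).comp hlim
  have hRl := (hR.tendsto a).comp hlim
  have hNa : N a = 0 := by
    apply le_antisymm _ (hN0 a)
    have h1 : Tendsto (fun n : ℕ => C * (T / (((ψ n : ℕ) : ℝ) + 1)) ^ 2 *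
        R (c (T / (((ψ n : ℕ) : ℝ) + 1))) - T / (((ψ n : ℕ) : ℝ) + 1) *
        B (c (T / (((ψ n : ℕ) : ℝ) + 1)))) atTop (𝓝 (C * 0 ^ 2 * R a - 0 * B a)) :=
      (((hT1.pow 2).const_mul C).mul hRl).sub (hT1.mul hBl)
    have h2 : C * 0 ^ 2 * R a - 0 * B a = 0 := by ring
    rw [h2] at h1
    refine le_of_tendsto_of_tendsto hNl h1 (Eventually.of_forall (fun n => ?_))
    have h3 := (hc (T / (((ψ n : ℕ) : ℝ) + 1)) (hTn _).1 (hTn _).2).2
    simp only [Function.comp]
    linarith
  have hBa : B a ≤ 0 := by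
    have h1 : Tendsto (fun n : ℕ => C * (T / (((ψ n : ℕ) : ℝ) + 1)) *
        R (c (T / (((ψ n : ℕ) : ℝ) + 1)))) atTop (𝓝 (C * 0 * R a)) :=
      ((hT1.const_mul C).mul hRl)
    have h2 : C * 0 * R a = 0 := by ring
    rw [h2] at h1
    refine le_of_tendsto_of_tendsto hBl h1 (Eventually.of_forall (fun n => ?_))
    have h3 := (hc (T / (((ψ n : ℕ) : ℝ) + 1)) (hTn _).1 (hTn _).2).2
    have h4 := hN0 (c (T / (((ψ n : ℕ) : ℝ) + 1)))
    have h5 := (hTn (ψ n)).1
    simp only [Function.comp]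
    have h6 : T / (((ψ n : ℕ) : ℝ) + 1) * (B (c (T / (((ψ n : ℕ) : ℝ) + 1))) -
        C * (T / (((ψ n : ℕ) : ℝ) + 1)) * R (c (T / (((ψ n : ℕ) : ℝ) + 1)))) ≤ 0 := by
      nlinarith
    have h7 : B (c (T / (((ψ n : ℕ) : ℝ) + 1))) -
        C * (T / (((ψ n : ℕ) : ℝ) + 1)) * R (c (T / (((ψ n : ℕ) : ℝ) + 1))) ≤ 0 := by
      by_contra h8
      push Not at h8
      have := mul_pos h5 h8
      linarith
    linarith
  exact absurd (hBN a ha0 hNa) (not_lt.2 hBa)

section forms

variable {d k : ℕ}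

theorem expand (c : Fin k → ℝ) (h : Fin k → Fin k → E d → ℝ) (hi : ∀ i j, Integrable (h i j)) :
    Integrable (fun x => ∑ i, ∑ j, c i * c j * h i j x) ∧
      ∫ x, ∑ i, ∑ j, c i * c j * h i j x = ∑ i, ∑ j, c i * c j * ∫ x, h i j x := by
  constructor
  · exact integrable_finsetSum _ (fun i _ => integrable_finsetSum _
      (fun j _ => (hi i j).const_mul _))
  · rw [integral_finsetSum _ (fun i _ => integrable_finsetSum _
      (fun j _ => (hi i j).const_mul _))]
    refine Finset.sum_congr rfl (fun i _ => ?_)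
    rw [integral_finsetSum _ (fun j _ => (hi i j).const_mul _)]
    refine Finset.sum_congr rfl (fun j _ => ?_)
    rw [integral_const_mul]

theorem lc_sq (c : Fin k → ℝ) (u : Fin k → E d → ℝ) (x : E d) (a : ℝ) :
    a * lc c u x ^ 2 = ∑ i, ∑ j, c i * c j * (a * (u i x * u j x)) := by
  unfold lc
  rw [pow_two, Finset.sum_mul_sum, Finset.mul_sum]
  refine Finset.sum_congr rfl (fun i _ => ?_)
  rw [Finset.mul_sum]
  refine Finset.sum_congr rfl (fun j _ => ?_)
  ring

theorem lcg_sq (c : Fin k → ℝ) (g : Fin k → E d → E d) (x : E d) :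
    ‖lcg c g x‖ ^ 2 = ∑ i, ∑ j, c i * c j * inner ℝ (g i x) (g j x) := by
  unfold lcg
  rw [← real_inner_self_eq_norm_sq, sum_inner]
  refine Finset.sum_congr rfl (fun i _ => ?_)
  rw [inner_sum]
  refine Finset.sum_congr rfl (fun j _ => ?_)
  rw [real_inner_smul_left, real_inner_smul_right]
  ring

theorem int_sq {V : E d → ℝ≥0∞} (hV : Measurable V) {u : E d → ℝ}
    (hu : AEStronglyMeasurable u volume) (hf : ∫⁻ x, V x * ‖u x‖ₑ ^ 2 < ⊤) :
    Integrable (fun x => (V x).toReal * u x ^ 2) := by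
  refine ⟨(hV.ennreal_toReal.aestronglyMeasurable).mul (hu.pow 2), ?_⟩
  refine lt_of_le_of_lt (lintegral_mono (fun x => ?_)) hf
  rw [enorm_mul, enorm_pow]
  gcongr
  rw [Real.enorm_eq_ofReal ENNReal.toReal_nonneg]
  exact ENNReal.ofReal_toReal_le

theorem int_wt {V : E d → ℝ≥0∞} (hV : Measurable V) {u w b : E d → ℝ} {K : ℝ}
    (hu : AEStronglyMeasurable u volume) (hf : ∫⁻ x, V x * ‖u x‖ₑ ^ 2 < ⊤)
    (hw : AEStronglyMeasurable w volume) (hf' : ∫⁻ x, V x * ‖w x‖ₑ ^ 2 < ⊤)
    (hb : Measurable b) (hK : ∀ x, |b x| ≤ K) :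
    Integrable (fun x => (V x).toReal * b x * (u x * w x)) := by
  have h1 := ((int_sq hV hu hf).add (int_sq hV hw hf')).const_mul K
  refine h1.mono' ?_ (Eventually.of_forall (fun x => ?_))
  · exact ((hV.ennreal_toReal.aestronglyMeasurable).mul hb.aestronglyMeasurable).mul (hu.mul hw)
  · simp only [Pi.add_apply]
    rw [Real.norm_eq_abs, abs_mul, abs_mul, abs_mul, abs_of_nonneg ENNReal.toReal_nonneg]
    have h2 : 0 ≤ (V x).toReal := ENNReal.toReal_nonneg
    have h3 := hK x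
    have h4 : |u x| * |w x| ≤ u x ^ 2 + w x ^ 2 := by
      nlinarith [sq_nonneg (|u x| - |w x|), sq_abs (u x), sq_abs (w x), abs_nonneg (u x),
        abs_nonneg (w x)]
    have h5 : 0 ≤ |u x| * |w x| := by positivity
    have h6 : 0 ≤ K := (abs_nonneg _).trans h3
    calc (V x).toReal * |b x| * (|u x| * |w x|) ≤ (V x).toReal * K * (u x ^ 2 + w x ^ 2) := by
          gcongr
      _ = _ := by ring

theorem ae_top {V : E d → ℝ≥0∞} {u : E d → ℝ} (hV : Measurable V)
    (hu : AEStronglyMeasurable u volume) (hf : ∫⁻ x, V x * ‖u x‖ₑ ^ 2 < ⊤) :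
    ∀ᵐ x : E d, V x = ⊤ → u x = 0 := by
  have h1 : AEMeasurable (fun x => V x * ‖u x‖ₑ ^ 2) volume :=
    hV.aemeasurable.mul (hu.enorm.pow_const 2)
  have h2 := ae_lt_top' h1 hf.ne
  filter_upwards [h2] with x hx hx2
  by_contra h3
  rw [hx2, ENNReal.top_mul (by simpa using h3)] at hx
  exact lt_irrefl _ hx

theorem lint_eq {V : E d → ℝ≥0∞} {w b : E d → ℝ} (hb : ∀ x, 0 ≤ b x)
    (hz : ∀ᵐ x : E d, V x = ⊤ → w x = 0)
    (hi : Integrable (fun x => (V x).toReal * b x * w x ^ 2)) :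
    ∫⁻ x, V x * ENNReal.ofReal (b x) * ‖w x‖ₑ ^ 2 =
      ENNReal.ofReal (∫ x, (V x).toReal * b x * w x ^ 2) := by
  rw [ofReal_integral_eq_lintegral_ofReal hi (Eventually.of_forall (fun x => by
    have := hb x
    have h2 : 0 ≤ (V x).toReal := ENNReal.toReal_nonneg
    positivity))]
  refine lintegral_congr_ae ?_
  filter_upwards [hz] with x hx
  have h2 : 0 ≤ (V x).toReal := ENNReal.toReal_nonneg
  rcases eq_or_ne (V x) ⊤ with h | h
  · rw [hx h]
    simp
  · rw [ENNReal.ofReal_mul (mul_nonneg h2 (hb x)), ENNReal.ofReal_mul h2, ENNReal.ofReal_toReal h]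
    congr 1
    rw [← sq_abs, ENNReal.ofReal_pow (abs_nonneg _), ← Real.norm_eq_abs, ofReal_norm]

end forms

theorem pert : S_PERT := by
  intro d p k V L hd hp hk hopt hL hlam u g ν hE φ M hφm hφ0 hφM hφ1
  by_contra hcon
  push Not at hcon
  obtain ⟨hVm, hmass, hmin⟩ := hopt
  have hM : 0 ≤ M := (hφ0 0).trans (hφM 0)
  set q : ℝ := 1 / p with hq
  have hq0 : 0 < q := by positivity
  have hum : ∀ i, AEStronglyMeasurable (u i) volume := fun i => (hE.inH i).mu.aestronglyMeasurable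
  have huf : ∀ i, ∫⁻ x, V x * ‖u i x‖ₑ ^ 2 < ⊤ := fun i => (hE.inH i).fin
  -- weighted forms
  have hW : ∀ (b : E d → ℝ) (K : ℝ), Measurable b → (∀ x, |b x| ≤ K) → ∀ i j,
      Integrable (fun x => (V x).toReal * b x * (u i x * u j x)) :=
    fun b K hb hK i j => int_wt hVm (hum i) (huf i) (hum j) (huf j) hb hK
  have hWc : ∀ (b : E d → ℝ) (K : ℝ), Measurable b → (∀ x, |b x| ≤ K) → ∀ c : Fin k → ℝ,
      Integrable (fun x => (V x).toReal * b x * lc c u x ^ 2) ∧
      ∫ x, (V x).toReal * b x * lc c u x ^ 2 =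
        ∑ i, ∑ j, c i * c j * ∫ x, (V x).toReal * b x * (u i x * u j x) := by
    intro b K hb hK c
    have h1 := expand c (fun i j x => (V x).toReal * b x * (u i x * u j x))
      (fun i j => hW b K hb hK i j)
    simp only [lc_sq]
    exact h1
  have hztop : ∀ c : Fin k → ℝ, ∀ᵐ x : E d, V x = ⊤ → lc c u x = 0 := by
    intro c
    have h1 : ∀ᵐ x : E d, ∀ i, V x = ⊤ → u i x = 0 :=
      ae_all_iff.2 (fun i => ae_top hVm (hum i) (huf i))
    filter_upwards [h1] with x hx hx2
    unfold lc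
    exact Finset.sum_eq_zero (fun i _ => by rw [hx i hx2, mul_zero])
  -- the gradient part
  have hGi : ∀ i j, Integrable (fun x => inner ℝ (g i x) (g j x)) := by
    intro i j
    have h1 := ((hE.inH i).mg.integrable_norm_pow (by norm_num)).add
      ((hE.inH j).mg.integrable_norm_pow (by norm_num))
    refine h1.mono' ?_ (Eventually.of_forall (fun x => ?_))
    · exact (hE.inH i).mg.aestronglyMeasurable.inner (hE.inH j).mg.aestronglyMeasurable
    · simp only [Pi.add_apply]
      have h2 := abs_real_inner_le_norm (g i x) (g j x)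
      rw [Real.norm_eq_abs]
      nlinarith [sq_nonneg (‖g i x‖ - ‖g j x‖), norm_nonneg (g i x), norm_nonneg (g j x)]
  have hUi : ∀ i j, Integrable (fun x => u i x * u j x) :=
    fun i j => (hE.inH i).mu.integrable_mul (hE.inH j).mu
  -- the square norm of a combination
  have hR : ∀ c : Fin k → ℝ, Pool.Agent.Y315.OP.sq (lc c u) = ENNReal.ofReal (∑ i, c i ^ 2) := by
    intro c
    have h1 := expand c (fun i j x => u i x * u j x) hUi
    have h2 : ∀ x, lc c u x ^ 2 = ∑ i, ∑ j, c i * c j * (u i x * u j x) := by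
      intro x
      have := lc_sq c u x 1
      simpa using this
    have h3 : Integrable (fun x => lc c u x ^ 2) := by
      simp only [h2]
      exact h1.1
    have h4 : ∫ x, lc c u x ^ 2 = ∑ i, c i ^ 2 := by
      simp only [h2]
      rw [h1.2]
      simp only [hE.orth]
      refine Finset.sum_congr rfl (fun i _ => ?_)
      simp [pow_two]
    unfold Pool.Agent.Y315.OP.sq
    rw [← h4, ofReal_integral_eq_lintegral_ofReal h3
      (Eventually.of_forall (fun x => sq_nonneg _))]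
    refine lintegral_congr (fun x => ?_)
    rw [← sq_abs, ENNReal.ofReal_pow (abs_nonneg _), ← Real.norm_eq_abs, ofReal_norm]
  have hG : ∀ c : Fin k → ℝ, ∫⁻ x, ‖lcg c g x‖ₑ ^ 2 =
      ENNReal.ofReal (∑ i, ∑ j, c i * c j * ∫ x, inner ℝ (g i x) (g j x)) ∧
      0 ≤ ∑ i, ∑ j, c i * c j * ∫ x, inner ℝ (g i x) (g j x) := by
    intro c
    have h1 := expand c (fun i j x => inner ℝ (g i x) (g j x)) hGi
    simp only [← lcg_sq] at h1
    rw [← h1.2]
    refine ⟨?_, integral_nonneg (fun x => by positivity)⟩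
    rw [ofReal_integral_eq_lintegral_ofReal h1.1 (Eventually.of_forall (fun x => by positivity))]
    refine lintegral_congr (fun x => ?_)
    rw [ENNReal.ofReal_pow (norm_nonneg _), ofReal_norm]
  have hEig : ∀ i j, (∫ x, inner ℝ (g i x) (g j x)) +
      ∫ x, (V x).toReal * (fun _ => (1 : ℝ)) x * (u i x * u j x) =
      ν i * if i = j then (1 : ℝ) else 0 := by
    intro i j
    have h1 := hE.eig i (u j) (g j) (hE.inH j)
    rw [hE.orth i j] at h1
    simpa using h1
  have hNN : ∀ c : Fin k → ℝ, (∑ i, ∑ j, c i * c j * ∫ x, inner ℝ (g i x) (g j x)) +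
      (∑ i, ∑ j, c i * c j * ∫ x, (V x).toReal * (fun _ => (1 : ℝ)) x * (u i x * u j x)) =
      ∑ i, ν i * c i ^ 2 := by
    intro c
    rw [← Finset.sum_add_distrib]
    refine Finset.sum_congr rfl (fun i _ => ?_)
    rw [← Finset.sum_add_distrib]
    have h1 : ∀ j, c i * c j * ∫ x, inner ℝ (g i x) (g j x) = c i * c j *
        (∫ x, inner ℝ (g i x) (g j x)) := fun j => rfl
    have h2 : ∀ j, c i * c j * (∫ x, inner ℝ (g i x) (g j x)) + c i * c j *
        (∫ x, (V x).toReal * (fun _ => (1 : ℝ)) x * (u i x * u j x)) =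
        c i * c j * (ν i * if i = j then (1 : ℝ) else 0) := by
      intro j
      rw [← mul_add, hEig]
    simp only [h2]
    simp
    ring
  -- the weight `φ - 1`
  have hb1m : Measurable (fun x => φ x - 1) := hφm.sub_const 1
  have hb1K : ∀ x, |φ x - 1| ≤ 1 + M := by
    intro x
    rw [abs_le]
    constructor <;> linarith [hφ0 x, hφM x]
  have hone : ∀ x : E d, |(fun _ => (1 : ℝ)) x| ≤ 1 := fun x => by simp
  set Bm : (Fin k → ℝ) → ℝ := fun c => ∑ i, ∑ j, c i * c j *
    ∫ x, (V x).toReal * (φ x - 1) * (u i x * u j x) with hBm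
  set Pm : (Fin k → ℝ) → ℝ := fun c => ∑ i, ∑ j, c i * c j *
    ∫ x, (V x).toReal * (fun _ => (1 : ℝ)) x * (u i x * u j x) with hPm
  set C1 : ℝ := (2 * q + 4 * q ^ 2) * (1 + M) ^ 2 with hC1
  have hC1' : 0 ≤ C1 := by positivity
  obtain ⟨t, s, ht0, htT, hs0, hts⟩ := findim hk (fun c => ∑ i, (L - ν i) * c i ^ 2)
    (fun c => q * Bm c) (fun c => ∑ i, c i ^ 2)
    (by fun_prop) (by simp only [hBm]; fun_prop) (by fun_prop)
    (by
      intro a c
      simp only [Pi.smul_apply, smul_eq_mul, Finset.mul_sum]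
      exact Finset.sum_congr rfl (fun i _ => by ring))
    (by
      intro a c
      simp only [hBm, Pi.smul_apply, smul_eq_mul, Finset.mul_sum]
      exact Finset.sum_congr rfl (fun i _ => Finset.sum_congr rfl (fun j _ => by ring)))
    (by
      intro a c
      simp only [Pi.smul_apply, smul_eq_mul, Finset.mul_sum]
      exact Finset.sum_congr rfl (fun i _ => by ring))
    (by
      intro c
      exact Finset.sum_nonneg (fun i _ => mul_nonneg (by linarith [hE.le i]) (sq_nonneg _)))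
    (by
      intro c hc
      obtain ⟨i, hi⟩ := Function.ne_iff.1 hc
      exact Finset.sum_pos' (fun i _ => sq_nonneg _) ⟨i, Finset.mem_univ i, by
        have : c i ≠ 0 := hi
        positivity⟩)
    (by
      intro c hc hNc
      have h1 : ∀ i, ν i ≠ L → c i = 0 := by
        intro i hi
        have h2 := (Finset.sum_eq_zero_iff_of_nonneg
          (fun i _ => mul_nonneg (by linarith [hE.le i]) (sq_nonneg _))).1 hNc i
          (Finset.mem_univ i)
        rcases mul_eq_zero.1 h2 with h3 | h3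
        · exact absurd (by linarith) hi
        · exact pow_eq_zero_iff (two_ne_zero) |>.1 h3
      have h2 := hcon c hc h1
      have h3 := (hWc (fun x => φ x - 1) (1 + M) hb1m hb1K c).2
      have h4 : ∫ x, (V x).toReal * ((φ x - 1) * lc c u x ^ 2) = Bm c := by
        rw [hBm]
        simp only
        rw [← h3]
        congr 1
        ext x
        ring
      rw [h4] at h2
      exact mul_pos hq0 h2)
    (C1 * L) (1 / (2 * (1 + M) * (1 + q))) (by positivity)
  -- the perturbed potential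
  have hsm : ∀ x, |t * (φ x - 1)| ≤ 1 / 2 ∧ q * |t * (φ x - 1)| ≤ 1 / 2 ∧
      (t * (φ x - 1)) ^ 2 ≤ t ^ 2 * (1 + M) ^ 2 := by
    intro x
    have h1 : |t * (φ x - 1)| ≤ t * (1 + M) := by
      rw [abs_mul, abs_of_pos ht0]
      exact mul_le_mul_of_nonneg_left (hb1K x) ht0.le
    have h2 : t * (1 + M) ≤ 1 / (2 * (1 + q)) := by
      have h3 : t * (1 + M) ≤ 1 / (2 * (1 + M) * (1 + q)) * (1 + M) :=
        mul_le_mul_of_nonneg_right htT (by linarith)
      have h4 : 1 / (2 * (1 + M) * (1 + q)) * (1 + M) = 1 / (2 * (1 + q)) := by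
        have : (1 + M) ≠ 0 := by linarith
        field_simp
      linarith
    have h5 : 1 / (2 * (1 + q)) ≤ 1 / 2 := by
      apply one_div_le_one_div_of_le (by norm_num)
      linarith
    have h6 : q * (1 / (2 * (1 + q))) ≤ 1 / 2 := by
      rw [mul_one_div, div_le_div_iff₀ (by positivity) (by norm_num)]
      linarith
    refine ⟨by linarith, ?_, ?_⟩
    · calc q * |t * (φ x - 1)| ≤ q * (1 / (2 * (1 + q))) :=
            mul_le_mul_of_nonneg_left (h1.trans h2) hq0.le
        _ ≤ 1 / 2 := h6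
    · rw [← sq_abs, ← mul_pow]
      exact pow_le_pow_left₀ (abs_nonneg _) h1 2
  have hfpos : ∀ x, 0 < 1 + t * (φ x - 1) := by
    intro x
    have := (abs_le.1 (hsm x).1).1
    linarith
  set b : E d → ℝ := fun x => (1 + t * (φ x - 1)) ^ (-q) with hb
  have hbm : Measurable b := by
    rw [hb]
    exact ((hb1m.const_mul t).const_add 1).pow_const (-q)
  have hb0 : ∀ x, 0 ≤ b x := fun x => (Real.rpow_pos_of_pos (hfpos x) _).le
  have hbup : ∀ x, b x ≤ 1 - q * (t * (φ x - 1)) + C1 * t ^ 2 := by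
    intro x
    have h1 := elem q (t * (φ x - 1)) hq0 (hsm x).1 (hsm x).2.1
    have h2 : (2 * q + 4 * q ^ 2) * (t * (φ x - 1)) ^ 2 ≤ C1 * t ^ 2 := by
      rw [hC1]
      have h3 := mul_le_mul_of_nonneg_left (hsm x).2.2
        (show 0 ≤ 2 * q + 4 * q ^ 2 by positivity)
      linarith
    simp only [hb]
    linarith
  have hbK : ∀ x, |b x| ≤ 3 / 2 + C1 * t ^ 2 := by
    intro x
    rw [abs_of_nonneg (hb0 x)]
    have h1 := hbup x
    have h2 := (hsm x).2.1
    have h3 : -(q * (t * (φ x - 1))) ≤ q * |t * (φ x - 1)| := by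
      have := neg_abs_le (t * (φ x - 1))
      nlinarith
    linarith
  set W : E d → ℝ≥0∞ := fun x => V x * ENNReal.ofReal (b x) with hW'
  have hWm : Measurable W := hVm.mul hbm.ennreal_ofReal
  have hWmass : mass p W ≤ 1 := by
    have h1 : ∀ x, (W x) ^ (-p) = (V x) ^ (-p) * ENNReal.ofReal (1 + t * (φ x - 1)) := by
      intro x
      have h2 : (ENNReal.ofReal (b x)) ^ (-p) = ENNReal.ofReal (1 + t * (φ x - 1)) := by
        rw [ENNReal.ofReal_rpow_of_pos (Real.rpow_pos_of_pos (hfpos x) _)]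
        congr 1
        change ((1 + t * (φ x - 1)) ^ (-q)) ^ (-p) = _
        rw [← Real.rpow_mul (hfpos x).le]
        have : -q * -p = 1 := by
          rw [hq]
          field_simp
        rw [this, Real.rpow_one]
      rcases eq_or_ne (V x) 0 with h3 | h3
      · simp only [hW', h3, zero_mul]
        rw [ENNReal.zero_rpow_of_neg (by linarith), ENNReal.top_mul]
        simpa using hfpos x
      · simp only [hW']
        rw [ENNReal.mul_rpow_of_ne_zero h3
          (by simpa using Real.rpow_pos_of_pos (hfpos x) _), h2]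
    have h2 : ∀ x, (V x) ^ (-p) * ENNReal.ofReal (1 + t * (φ x - 1)) =
        ENNReal.ofReal (1 - t) * (V x) ^ (-p) +
        ENNReal.ofReal t * (ENNReal.ofReal (φ x) * (V x) ^ (-p)) := by
      intro x
      have h3 : 1 + t * (φ x - 1) = (1 - t) + t * φ x := by ring
      have h4 : t ≤ 1 := by
        refine htT.trans ?_
        rw [div_le_one (by positivity)]
        nlinarith [mul_nonneg hM hq0.le]
      rw [h3, ENNReal.ofReal_add (by linarith) (mul_nonneg ht0.le (hφ0 x)),
        ENNReal.ofReal_mul ht0.le]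
      ring
    have h4 : t ≤ 1 := by
      refine htT.trans ?_
      rw [div_le_one (by positivity)]
      nlinarith [mul_nonneg hM hq0.le]
    unfold mass
    simp only [h1, h2]
    have hVp : Measurable (fun x => (V x) ^ (-p)) := hVm.pow_const (-p)
    have hVq : Measurable (fun x => ENNReal.ofReal (φ x) * (V x) ^ (-p)) :=
      hφm.ennreal_ofReal.mul hVp
    rw [lintegral_add_left (hVp.const_mul _), lintegral_const_mul _ hVp,
      lintegral_const_mul _ hVq]
    calc ENNReal.ofReal (1 - t) * (∫⁻ x, (V x) ^ (-p)) +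
          ENNReal.ofReal t * (∫⁻ x, ENNReal.ofReal (φ x) * (V x) ^ (-p))
        ≤ ENNReal.ofReal (1 - t) * 1 + ENNReal.ofReal t * 1 :=
          add_le_add (mul_le_mul' le_rfl hmass) (mul_le_mul' le_rfl hφ1)
      _ = 1 := by
          rw [mul_one, mul_one, ← ENNReal.ofReal_add (by linarith) ht0.le]
          simp
  have hle := hmin W hWm hWmass
  -- the energy of a combination for the new potential
  have hPt : ∀ c : Fin k → ℝ, ∫⁻ x, W x * ‖lc c u x‖ₑ ^ 2 =
      ENNReal.ofReal (∫ x, (V x).toReal * b x * lc c u x ^ 2) := fun c =>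
    lint_eq hb0 (hztop c) (hWc b _ hbm hbK c).1
  have hPt0 : ∀ c : Fin k → ℝ, 0 ≤ ∫ x, (V x).toReal * b x * lc c u x ^ 2 := by
    intro c
    refine integral_nonneg (fun x => ?_)
    have h1 : 0 ≤ (V x).toReal := ENNReal.toReal_nonneg
    have h2 := hb0 x
    positivity
  have hPle : ∀ c : Fin k → ℝ, ∫ x, (V x).toReal * b x * lc c u x ^ 2 ≤
      Pm c - q * t * Bm c + C1 * t ^ 2 * Pm c := by
    intro c
    have h1 := hWc (fun _ => (1 : ℝ)) 1 measurable_const hone c
    have h2 := hWc (fun x => φ x - 1) (1 + M) hb1m hb1K c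
    have h3 : Pm c - q * t * Bm c + C1 * t ^ 2 * Pm c =
        ∫ x, ((V x).toReal * (fun _ => (1 : ℝ)) x * lc c u x ^ 2 -
          q * t * ((V x).toReal * (φ x - 1) * lc c u x ^ 2)) +
          C1 * t ^ 2 * ((V x).toReal * (fun _ => (1 : ℝ)) x * lc c u x ^ 2) := by
      have e1 : Integrable (fun x => q * t * ((V x).toReal * (φ x - 1) * lc c u x ^ 2)) :=
        h2.1.const_mul (q * t)
      have e2 : Integrable (fun x => C1 * t ^ 2 *
          ((V x).toReal * (fun _ => (1 : ℝ)) x * lc c u x ^ 2)) := h1.1.const_mul (C1 * t ^ 2)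
      have e3 : Integrable (fun x => (V x).toReal * (fun _ => (1 : ℝ)) x * lc c u x ^ 2 -
          q * t * ((V x).toReal * (φ x - 1) * lc c u x ^ 2)) := h1.1.sub e1
      rw [integral_add e3 e2, integral_sub h1.1 e1, integral_const_mul, integral_const_mul,
        h1.2, h2.2]
    rw [h3]
    refine integral_mono (hWc b _ hbm hbK c).1
      ((h1.1.sub (h2.1.const_mul (q * t))).add (h1.1.const_mul (C1 * t ^ 2))) (fun x => ?_)
    simp only
    have h4 : 0 ≤ (V x).toReal * lc c u x ^ 2 :=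
      mul_nonneg ENNReal.toReal_nonneg (sq_nonneg _)
    have h5 := mul_le_mul_of_nonneg_right (hbup x) h4
    nlinarith
  have hEn : ∀ c : Fin k → ℝ, (∑ i, ∑ j, c i * c j * ∫ x, inner ℝ (g i x) (g j x)) +
      ∫ x, (V x).toReal * b x * lc c u x ^ 2 ≤ (L - s) * ∑ i, c i ^ 2 := by
    intro c
    have h1 := hPle c
    have h2 := hNN c
    have h3 := hts c
    have h4 := (hG c).2
    have h5 : (∑ i, ν i * c i ^ 2) ≤ L * ∑ i, c i ^ 2 := by
      rw [Finset.mul_sum]
      exact Finset.sum_le_sum (fun i _ => mul_le_mul_of_nonneg_right (hE.le i) (sq_nonneg _))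
    have h6 : (∑ i, (L - ν i) * c i ^ 2) = L * (∑ i, c i ^ 2) - ∑ i, ν i * c i ^ 2 := by
      rw [Finset.mul_sum, ← Finset.sum_sub_distrib]
      exact Finset.sum_congr rfl (fun i _ => by ring)
    have h7 : Pm c ≤ L * ∑ i, c i ^ 2 := by
      have : Pm c = (∑ i, ν i * c i ^ 2) -
          ∑ i, ∑ j, c i * c j * ∫ x, inner ℝ (g i x) (g j x) := by
        rw [← h2]
        simp only [hPm]
        ring
      linarith
    have h8 : C1 * t ^ 2 * Pm c ≤ C1 * t ^ 2 * (L * ∑ i, c i ^ 2) :=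
      mul_le_mul_of_nonneg_left h7 (by positivity)
    have h9 : Pm c = (∑ i, ν i * c i ^ 2) -
        ∑ i, ∑ j, c i * c j * ∫ x, inner ℝ (g i x) (g j x) := by
      rw [← h2]
      simp only [hPm]
      ring
    rw [h6] at h3
    linarith
  have hLs : 0 ≤ L - s := by
    have h1 := hEn (fun _ => 1)
    have h2 := (hG (fun _ => 1)).2
    have h3 := hPt0 (fun _ => 1)
    have h4 : (∑ i : Fin k, (fun _ => (1 : ℝ)) i ^ 2) = k := by simp
    rw [h4] at h1
    have h5 : (0 : ℝ) < k := by exact_mod_cast hk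
    have h6 : 0 ≤ (L - s) * k := by linarith
    by_contra h7
    push Not at h7
    have := mul_neg_of_neg_of_pos h7 h5
    linarith
  have hlamW : lam k W ≤ ENNReal.ofReal (L - s) := by
    refine sInf_le ⟨u, g, ?_, ?_, ?_⟩
    · intro i
      refine ⟨(hE.inH i).mu, (hE.inH i).mg, (hE.inH i).wg, ?_⟩
      have h1 : Integrable (fun x => (V x).toReal * b x * u i x ^ 2) := by
        have := hW b _ hbm hbK i i
        simpa [pow_two] using this
      have h2 := lint_eq hb0 (ae_top hVm (hum i) (huf i)) h1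
      rw [h2]
      exact ENNReal.ofReal_lt_top
    · intro c hc
      rw [hR c]
      have : 0 < ∑ i, c i ^ 2 := by
        obtain ⟨i, hi⟩ := Function.ne_iff.1 hc
        exact Finset.sum_pos' (fun i _ => sq_nonneg _) ⟨i, Finset.mem_univ i, by
          have : c i ≠ 0 := hi
          positivity⟩
      simpa using this
    · intro c
      rw [hR c, ← ENNReal.ofReal_mul hLs]
      unfold energy
      rw [(hG c).1, hPt c, ← ENNReal.ofReal_add (hG c).2 (hPt0 c)]
      exact ENNReal.ofReal_le_ofReal (hEn c)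
  have hfin := hle.trans hlamW
  rw [hlam, ENNReal.ofReal_le_ofReal_iff hLs] at hfin
  linarith

end Pool.Agent.Y291.OP
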